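import Mathlib
import Pool.Agent.Helper92.PO.Stmts

namespace Pool.Agent.Helper92.PO

theorem anc_card (P : Finset Cell) (v : Cell) : (P.image (fun a => a + v)).card = P.card :=
  Finset.card_image_of_injective _ (add_left_injective v)

theorem anc_conn (P : Finset Cell) (v : Cell) (h : Conn P) : Conn (P.image (fun a => a + v)) := by
  intro a ha b hb
  rw [Finset.mem_image] at ha hb
  obtain ⟨a, ha, rfl⟩ := ha
  obtain ⟨b, hb, rfl⟩ := hb
  refine Relation.ReflTransGen.lift (fun a : Cell => a + v) ?_ a b (h a ha b hb)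
  rintro x y ⟨hy, hxy⟩
  refine ⟨Finset.mem_image_of_mem _ hy, ?_⟩
  unfold Adj at hxy ⊢
  simp only [Prod.fst_add, Prod.snd_add, add_sub_add_right_eq_sub]
  exact hxy

theorem anc_image (P : Finset Cell) (v w : Cell) :
    (P.image (fun a => a + v)).image (fun a => a + w) = P.image (fun a => a + (v + w)) := by
  rw [Finset.image_image]
  congr 1
  funext a
  simp only [Function.comp_apply, add_assoc]

theorem anc_zero (P : Finset Cell) : P.image (fun a => a + (0 : Cell)) = P := by
  simp

theorem anc_class (P : Finset Cell) (v : Cell) :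
    {Q | Translate (P.image (fun a => a + v)) Q} = {Q | Translate P Q} := by
  ext Q
  simp only [Set.mem_ofPred_eq]
  constructor
  · rintro ⟨w, rfl⟩
    exact ⟨v + w, anc_image P v w⟩
  · rintro ⟨w, rfl⟩
    refine ⟨-v + w, ?_⟩
    rw [anc_image, add_neg_cancel_left]

theorem st_ANC : ST_ANC := by
  intro n
  unfold fixedOminoes
  have h : {C : Set (Finset Cell) | ∃ P, IsOmino n P ∧ C = {Q | Translate P Q}} =
      (fun P => {Q | Translate P Q}) '' (Anch n) := by
    ext C
    simp only [Set.mem_ofPred_eq, Set.mem_image]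
    constructor
    · rintro ⟨P, ⟨hc, hne, hconn⟩, rfl⟩
      obtain ⟨o, ho, hmin⟩ := Finset.exists_min_image P (fun a => toLex a) hne
      refine ⟨P.image (fun a => a + (-o)), ⟨?_, ?_, ?_, ?_⟩, anc_class P (-o)⟩
      · rw [anc_card, hc]
      · exact anc_conn P (-o) hconn
      · rw [Finset.mem_image]
        exact ⟨o, ho, add_neg_cancel o⟩
      · intro a ha
        rw [Finset.mem_image] at ha
        obtain ⟨b, hb, rfl⟩ := ha
        have h1 := hmin b hb
        rw [Prod.Lex.toLex_le_toLex] at h1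
        simp only [Prod.fst_add, Prod.fst_neg, Prod.snd_add, Prod.snd_neg]
        rcases h1 with h1 | ⟨h1, h2⟩
        · left
          omega
        · right
          constructor <;> omega
    · rintro ⟨P, ⟨hc, hconn, h0, -⟩, rfl⟩
      exact ⟨P, ⟨hc, ⟨_, h0⟩, hconn⟩, rfl⟩
  rw [h]
  apply Set.InjOn.ncard_image
  rintro P ⟨-, -, hP0, hP⟩ P' ⟨-, -, hP0', hP'⟩ heq
  have heq2 : {Q | Translate P Q} = {Q | Translate P' Q} := heq
  have h1 : P' ∈ {Q | Translate P Q} := by
    rw [heq2]
    exact ⟨0, (anc_zero P').symm⟩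
  obtain ⟨v, rfl⟩ := h1
  have h2 := hP' v (by
    rw [Finset.mem_image]
    refine ⟨(0, 0), hP0, ?_⟩
    ext <;> simp)
  rw [Finset.mem_image] at hP0'
  obtain ⟨a, ha, hav⟩ := hP0'
  have h3 := hP a ha
  have h4 : a.1 + v.1 = 0 := congrArg Prod.fst hav
  have h5 : a.2 + v.2 = 0 := congrArg Prod.snd hav
  have h6 : v = 0 := by
    ext
    · simp only [Prod.fst_zero]
      omega
    · simp only [Prod.snd_zero]
      omega
  rw [h6, anc_zero]

end Pool.Agent.Helper92.PO
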