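import Mathlib
import Pool.Agent.Helper92.PO.Stmts

namespace Pool.Agent.Helper92.PO

open Function Turing Pool.Agent.Helper52.Poly

theorem tlnk_init (p₀ : Prog) (n : ℕ) (M : FinTM2) (iA : M.Γ M.k₀ ≃ Bool) (l : List Bool) :
    initList (Pool.Agent.Helper52.Poly.link p₀ n M iA) (List.map (Equiv.refl Bool).invFun l) =
      cfg p₀ n M iA [p₀] (update (fun _ => []) 0 l) (emp M) := by
  unfold initList cfg rc
  congr 1
  funext k
  rcases k with i | k
  · by_cases hi : i = 0
    · subst hi
      rw [dif_pos (by rfl)]
      show _ = update (fun _ => []) 0 l 0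
      rw [update_self]
      simp [Pool.Agent.Helper52.Poly.link]
    · rw [dif_neg (by intro h; exact hi (Sum.inl.inj h))]
      show [] = update (fun _ => []) 0 l (i : ℕ)
      rw [update_of_ne (by intro h; exact hi (Fin.ext h))]
  · rw [dif_neg (by intro h; exact absurd h (by simp [Pool.Agent.Helper52.Poly.link]))]
    rfl

theorem tlnk_mid (p₀ : Prog) (n : ℕ) (M : FinTM2) (iA : M.Γ M.k₀ ≃ Bool) (l : List Bool) :
    (⟨some (.inr (.inr M.main)), (none, M.initialState), stk n M
        (update (update (fun _ => []) 1 l.reverse) 1 [])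
        (@update M.K _ M.kDecidableEq (emp M) M.k₀ ((l.reverse.map iA.symm).reverse ++
          (emp M) M.k₀))⟩ : TM2.Cfg (LΓ n M) (LΛ p₀ M) (Lσ M)) =
        emb p₀ n M (initList M (List.map iA.invFun l)) := by
  unfold emb initList
  have h1 : update (update (fun _ => []) 1 l.reverse) 1 [] = (fun _ => [] : Store) := by
    rw [update_idem]
    funext i
    by_cases hi : i = 1
    · subst hi; rw [update_self]
    · rw [update_of_ne hi]
  rw [h1]
  simp only [Option.map_some]
  congr 2
  funext k
  by_cases hk : k = M.k₀
  · subst hk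
    rw [update_self, dif_pos rfl]
    simp only [emp, List.append_nil, List.map_reverse, List.reverse_reverse]
    rfl
  · rw [update_of_ne hk, dif_neg hk]; rfl

theorem tlnk_fin (p₀ : Prog) (n : ℕ) (M : FinTM2) (iA : M.Γ M.k₀ ≃ Bool) (l : List (M.Γ M.k₁)) :
    emb p₀ n M (haltList M l) = haltList (Pool.Agent.Helper52.Poly.link p₀ n M iA) l := by
  unfold emb haltList
  congr 1
  funext k
  rcases k with i | k
  · rw [dif_neg (by intro h; exact absurd h (by simp [Pool.Agent.Helper52.Poly.link]))]; rfl
  · by_cases hk : k = M.k₁
    · subst hk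
      rw [dif_pos (by rfl)]
      show (dite (M.k₁ = M.k₁) _ _ : List (M.Γ M.k₁)) = _
      rw [dif_pos rfl]
      rfl
    · rw [dif_neg (by intro h; exact hk (Sum.inr.inj h))]
      show (dite (k = M.k₁) _ _ : List (M.Γ k)) = _
      rw [dif_neg hk]
      rfl

theorem tlnk_key (p : Prog) (G : TM2ComputableAux Bool Bool) (l l' : List Bool) (c t : ℕ)
    (hr : Run p (update (fun _ => []) 0 l) (update (fun _ => []) 0 l') c)
    (e3 : Steps G.tm (initList G.tm (List.map G.inputAlphabet.invFun l')) t
        (haltList G.tm (List.map G.outputAlphabet.invFun l'))) :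
    Steps (Pool.Agent.Helper52.Poly.link (.seq p (mv 0 1)) (max p.bd 2) G.tm G.inputAlphabet)
      (initList (Pool.Agent.Helper52.Poly.link (.seq p (mv 0 1)) (max p.bd 2) G.tm G.inputAlphabet)
        (List.map (Equiv.refl Bool).invFun l)) (t + (l'.length + 1 + (c + (2 * l'.length + 1) + 1)))
      (haltList (Pool.Agent.Helper52.Poly.link (.seq p (mv 0 1)) (max p.bd 2) G.tm G.inputAlphabet)
        (List.map G.outputAlphabet.invFun l')) := by
  rw [tlnk_init]
  have hr2 : Run (mv 0 1) (update (fun _ => []) 0 l')
      (update (fun _ => []) 1 l'.reverse) (2 * l'.length + 1) := by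
    refine run_mv' (by norm_num) (l := l') (l' := []) (update_self _ _ _) ?_ ?_ ?_ ?_
    · rw [update_of_ne (by norm_num)]
    · rw [update_of_ne (by norm_num)]
    · rw [update_self, List.append_nil]
    · intro i i1 i2; rw [update_of_ne i2, update_of_ne i1]
  have hr3 := Run.seq hr hr2
  have e1 := sim (.seq p (mv 0 1)) (max p.bd 2) G.tm G.inputAlphabet hr3 [] (emp G.tm)
    (fun x hx => hx) (by
      simp only [Prog.bd, bd_mv]; omega)
  have hcfg : cfg (.seq p (mv 0 1)) (max p.bd 2) G.tm G.inputAlphabet []
      (update (fun _ => []) 1 l'.reverse) (emp G.tm) =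
      tc (.seq p (mv 0 1)) (max p.bd 2) G.tm (update (fun _ => []) 1 l'.reverse) (emp G.tm) := by
    unfold cfg rc tc lab
    rw [dif_neg (nil_notMem_reach _ [])]
  have e2 := sim_transfer (.seq p (mv 0 1)) (max p.bd 2) G.tm G.inputAlphabet l'.reverse
    (update (fun _ => []) 1 l'.reverse) (emp G.tm) (update_self _ _ _)
  rw [hcfg] at e1
  have e4 := sim_emb (.seq p (mv 0 1)) (max p.bd 2) G.tm G.inputAlphabet e3
  rw [tlnk_mid, List.length_reverse] at e2
  rw [tlnk_fin (.seq p (mv 0 1)) (max p.bd 2) G.tm G.inputAlphabet] at e4
  exact (e1.trans e2).trans e4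

theorem st_TLNK : ST_TLNK := by
  intro α β ea eb f p time hrun
  have key : ∀ a, ∃ k ≤ 4 * ((ea a).length + time (ea a).length) + time (ea a).length + 20,
      Steps (Pool.Agent.Helper52.Poly.link (.seq p (mv 0 1)) (max p.bd 2)
        (idComputableInTime (fun l : List Bool => l)).tm
        (idComputableInTime (fun l : List Bool => l)).inputAlphabet)
      (initList (Pool.Agent.Helper52.Poly.link (.seq p (mv 0 1)) (max p.bd 2)
        (idComputableInTime (fun l : List Bool => l)).tm
        (idComputableInTime (fun l : List Bool => l)).inputAlphabet)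
        (List.map (Equiv.refl Bool).invFun (ea a))) k
      (haltList (Pool.Agent.Helper52.Poly.link (.seq p (mv 0 1)) (max p.bd 2)
        (idComputableInTime (fun l : List Bool => l)).tm
        (idComputableInTime (fun l : List Bool => l)).inputAlphabet)
        (List.map (idComputableInTime (fun l : List Bool => l)).outputAlphabet.invFun
          (eb (f a)))) := by
    intro a
    obtain ⟨c, hc, hr⟩ := hrun a
    have hout := (idComputableInTime (fun l : List Bool => l)).outputsFun (eb (f a))
    have e := tlnk_key p (idComputableInTime (fun l : List Bool => l)).toTM2ComputableAux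
      (ea a) (eb (f a)) c hout.steps hr hout.evals_in_steps
    refine ⟨_, ?_, e⟩
    have h1 : hout.steps ≤ 1 := by
      have h := hout.steps_le_m
      have h2 : (idComputableInTime (fun l : List Bool => l)).time (eb (f a)).length = 1 := by
        show Polynomial.eval _ (1 : Polynomial ℕ) = 1
        rw [Polynomial.eval_one]
      exact le_trans h (le_of_eq h2)
    have h3 := hr.length_le 0
    rw [update_self, update_self] at h3
    omega
  exact ⟨{ tm := Pool.Agent.Helper52.Poly.link (.seq p (mv 0 1)) (max p.bd 2)
            (idComputableInTime (fun l : List Bool => l)).tm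
            (idComputableInTime (fun l : List Bool => l)).inputAlphabet
           inputAlphabet := Equiv.refl Bool
           outputAlphabet := (idComputableInTime (fun l : List Bool => l)).outputAlphabet
           time := fun n => 4 * (n + time n) + time n + 20
           outputsFun := fun a => ⟨⟨(key a).choose, (key a).choose_spec.2⟩,
            (key a).choose_spec.1⟩ }, fun n => rfl⟩

end Pool.Agent.Helper92.PO
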